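import Pool.Agent.H892.ZL.Defs

set_option autoImplicit false

/-!
# Nets of quadrics in `P^3`, their discriminants, and the threefolds of lines on their members
-/

namespace Pool.Agent.H892.ZL

open MvPolynomial Matrix

open scoped LinearAlgebra.Projectivization

/-- The symmetric bilinear form with the matrix `A`. -/
def bf {R : Type*} [CommRing R] (A : Matrix (Fin 4) (Fin 4) R) (x y : Fin 4 → R) : R := x ⬝ᵥ A *ᵥ y

/-- The quadratic form with the matrix `A`. -/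
def qf {R : Type*} [CommRing R] (A : Matrix (Fin 4) (Fin 4) R) (x : Fin 4 → R) : R := x ⬝ᵥ A *ᵥ x

/-- The member `l 0 • Q 0 + l 1 • Q 1 + l 2 • Q 2` of the net spanned by `Q 0`, `Q 1`, `Q 2`. -/
def member (Q : Fin 3 → Matrix (Fin 4) (Fin 4) ℂ) (l : Fin 3 → ℂ) : Matrix (Fin 4) (Fin 4) ℂ :=
  ∑ k, l k • Q k

/-- The discriminant `det (X 0 • Q 0 + X 1 • Q 1 + X 2 • Q 2)` of the net. -/
noncomputable def disc (Q : Fin 3 → Matrix (Fin 4) (Fin 4) ℂ) : MvPolynomial (Fin 3) ℂ :=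
  (∑ k, (X k : MvPolynomial (Fin 3) ℂ) • (Q k).map C).det

/-- The discriminant curve of the net. -/
def discCurve (Q : Fin 3 → Matrix (Fin 4) (Fin 4) ℂ) : Set (ℙ ℂ (Fin 3 → ℂ)) :=
  {p | eval p.rep (disc Q) = 0}

/-- The base locus of the net. -/
def base (Q : Fin 3 → Matrix (Fin 4) (Fin 4) ℂ) : Set (ℙ ℂ (Fin 4 → ℂ)) :=
  {p | ∀ k, qf (Q k) p.rep = 0}

/-- A regular net of quadrics in `P^3`: the three quadrics are linearly independent, there are eight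
(distinct) base points, and the discriminant curve is a smooth plane quartic. -/
structure Regular (Q : Fin 3 → Matrix (Fin 4) (Fin 4) ℂ) : Prop where
  symm : ∀ k, (Q k).IsSymm
  indep : LinearIndependent ℂ Q
  eight : (base Q).ncard = 8
  smooth : ∀ l : Fin 3 → ℂ, l ≠ 0 → eval l (disc Q) = 0 → ∃ k, eval l (pderiv k (disc Q)) ≠ 0

/-- The lines of `P^3` contained in at least one quadric of the net, as points of `P^5`. -/
def ZZ (Q : Fin 3 → Matrix (Fin 4) (Fin 4) ℂ) : Set (ℙ ℂ (Fin 6 → ℂ)) :=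
  {p | ∃ (x y : Fin 4 → ℂ) (h : plu x y ≠ 0), LinearIndependent ℂ ![x, y] ∧
    p = Projectivization.mk ℂ (plu x y) h ∧
    ∃ l : Fin 3 → ℂ, l ≠ 0 ∧ ∀ a b : ℂ, qf (member Q l) (a • x + b • y) = 0}

/-- A regular map of quasi-projective varieties (given as sets of points of projective spaces):
in the neighbourhood `h ≠ 0` of every point `v` it is given by homogeneous polynomials of the same degree
without common zeros on this neighbourhood. -/
def IsRegularMap {m n : ℕ} (V : Set (ℙ ℂ (Fin m → ℂ))) (W : Set (ℙ ℂ (Fin n → ℂ))) (φ : V → W) :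
    Prop :=
  ∀ v : V, ∃ (d e : ℕ) (f : Fin n → MvPolynomial (Fin m) ℂ) (h : MvPolynomial (Fin m) ℂ),
    (∀ i, (f i).IsHomogeneous d) ∧ h.IsHomogeneous e ∧ eval v.1.rep h ≠ 0 ∧
    ∀ u : V, eval u.1.rep h ≠ 0 → ∃ hf : (fun i => eval u.1.rep (f i)) ≠ 0,
      (φ u).1 = Projectivization.mk ℂ (fun i => eval u.1.rep (f i)) hf

/-- Isomorphic varieties. -/
def IsoVar {m n : ℕ} (V : Set (ℙ ℂ (Fin m → ℂ))) (W : Set (ℙ ℂ (Fin n → ℂ))) : Prop :=
  ∃ φ : V ≃ W, IsRegularMap V W φ ∧ IsRegularMap W V φ.symm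

/-- The antisymmetric matrix of a vector of Pluecker coordinates. -/
def phat {R : Type*} [CommRing R] (p : Fin 6 → R) : Matrix (Fin 4) (Fin 4) R :=
  !![0, p 0, p 1, p 2; -p 0, 0, p 3, p 4; -p 1, -p 3, 0, p 5; -p 2, -p 4, -p 5, 0]

/-- The equation of the complex of the lines contained in a member of the net. -/
noncomputable def NetK (Q : Fin 3 → Matrix (Fin 4) (Fin 4) ℂ) : MvPolynomial (Fin 6) ℂ :=
  -((Q 0).map C * phat X * (Q 1).map C * phat X * (Q 2).map C * phat X).trace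

/-- The restrictions of the three quadrics to the line through `x` and `y`. -/
def NN {R : Type*} [CommRing R] (Q : Fin 3 → Matrix (Fin 4) (Fin 4) R) (x y : Fin 4 → R) :
    Matrix (Fin 3) (Fin 3) R :=
  Matrix.of fun k => ![bf (Q k) x x, bf (Q k) x y, bf (Q k) y y]

/-- The derivative of `NN` in the direction `(ξ, η)`. -/
def NN' {R : Type*} [CommRing R] (Q : Fin 3 → Matrix (Fin 4) (Fin 4) R) (x y ξ η : Fin 4 → R) :
    Matrix (Fin 3) (Fin 3) R :=
  Matrix.of fun k => ![2 * bf (Q k) x ξ, bf (Q k) ξ y + bf (Q k) x η, 2 * bf (Q k) y η]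

/-- The quadrics of the net are of rank at least `3`. -/
def RegA (Q : Fin 3 → Matrix (Fin 4) (Fin 4) ℂ) : Prop := ∀ l : Fin 3 → ℂ, l ≠ 0 →
  ∀ e e' : Fin 4 → ℂ, member Q l *ᵥ e = 0 → member Q l *ᵥ e' = 0 → ¬ LinearIndependent ℂ ![e, e']

/-- The vertex of a cone of the net is not a base point. -/
def RegB (Q : Fin 3 → Matrix (Fin 4) (Fin 4) ℂ) : Prop := ∀ l : Fin 3 → ℂ, l ≠ 0 →
  ∀ e : Fin 4 → ℂ, e ≠ 0 → member Q l *ᵥ e = 0 → ∃ k, qf (Q k) e ≠ 0

/-- The determinant of four vectors. -/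
def brk {R : Type*} [CommRing R] (P : Fin 8 → Fin 4 → R) (i j k l : Fin 8) : R :=
  (Matrix.of ![P i, P j, P k, P l]).det

/-- The first net. -/
def QAi : Fin 3 → Matrix (Fin 4) (Fin 4) ℤ :=
  ![!![26, 22, 10, -13; 22, 0, 7, 0; 10, 7, 0, 0; -13, 0, 0, 0],
    !![18, 19, 22, -9; 19, 14, 7, -7; 22, 7, 0, 0; -9, -7, 0, 0],
    !![-6, 10, -5, 3; 10, 0, 7, 0; -5, 7, 14, -7; 3, 0, -7, 0]]

/-- The second net. -/
def QBi : Fin 3 → Matrix (Fin 4) (Fin 4) ℤ :=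
  ![!![-14, -4, -16, 7; -4, 6, -19, -3; -16, -19, -18, 9; 7, -3, 9, 0],
    !![0, -13, -10, 0; -13, -26, -25, 13; -10, -25, -6, 3; 0, 13, 3, 0],
    !![0, 2, -13, 0; 2, 18, -1, -9; -13, -1, -26, 13; 0, -9, 13, 0]]

/-- The eight base points of the first net. -/
def PAi : Fin 8 → Fin 4 → ℤ :=
  ![![1, 0, 0, 1], ![0, 1, 0, 1], ![0, 0, 1, 1], ![0, 0, 0, 1], ![1, 1, 1, 4], ![1, -4, -2, -3],
    ![1, -2, 2, -3], ![1, 2, -4, -3]]

/-- The eight base points of the second net. -/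
def PBi : Fin 8 → Fin 4 → ℤ :=
  ![![1, 0, 0, 1], ![0, 1, 0, 1], ![0, 0, 1, 1], ![0, 0, 0, 1], ![1, 1, 1, 4], ![4, -1, -2, 3],
    ![4, -2, 2, 3], ![4, 2, -1, 3]]

/-- The first net, over the complex numbers. -/
def QA : Fin 3 → Matrix (Fin 4) (Fin 4) ℂ := fun k => (QAi k).map (Int.cast : ℤ → ℂ)

/-- The second net, over the complex numbers. -/
def QB : Fin 3 → Matrix (Fin 4) (Fin 4) ℂ := fun k => (QBi k).map (Int.cast : ℤ → ℂ)

/-- The eight base points of the first net, over the complex numbers. -/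
def PA : Fin 8 → Fin 4 → ℂ := fun i j => (PAi i j : ℂ)

/-- The eight base points of the second net, over the complex numbers. -/
def PB : Fin 8 → Fin 4 → ℂ := fun i j => (PBi i j : ℂ)

/-- The discriminant of both nets, divided by `49`. -/
noncomputable def DD : MvPolynomial (Fin 3) ℂ :=
  C 169 * (X 0 ^ 4 + X 1 ^ 4 + X 2 ^ 4)
    - C 194 * (X 0 ^ 2 * X 1 ^ 2 + X 0 ^ 2 * X 2 ^ 2 + X 1 ^ 2 * X 2 ^ 2)
    + C 312 * (X 0 ^ 3 * X 1 - X 0 * X 1 ^ 3 + X 0 * X 2 ^ 3 - X 0 ^ 3 * X 2 + X 1 * X 2 ^ 3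
      - X 1 ^ 3 * X 2)
    + C 24 * (X 0 * X 1 * X 2 ^ 2 + X 0 * X 1 ^ 2 * X 2 - X 0 ^ 2 * X 1 * X 2)

end Pool.Agent.H892.ZL
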