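import Pool.Agent.H892.ZL.Stm
import Pool.Agent.H892.ZL.Net

set_option autoImplicit false

/-!
# Lines on the quadrics of a net: statements of the lemmas, part 2 (nets)
-/

namespace Pool.Agent.H892.ZL

open MvPolynomial Matrix

open scoped LinearAlgebra.Projectivization

/-- The equation of the complex is homogeneous of degree `3`. -/
def S_NETH : Prop := ∀ Q : Fin 3 → Matrix (Fin 4) (Fin 4) ℂ, (NetK Q).IsHomogeneous 3

/-- The equation of the complex and its differential at a decomposable vector. -/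
def S_NETD : Prop := ∀ Q : Fin 3 → Matrix (Fin 4) (Fin 4) ℂ, (∀ k, (Q k).IsSymm) →
  (∀ x y, eval (plu x y) (NetK Q) = (NN Q x y).det) ∧
  ∀ x y ξ η : Fin 4 → ℂ, ∑ I, grad (NetK Q) (plu x y) I * (plu ξ y + plu x η) I =
    ((NN Q x y).adjugate * NN' Q x y ξ η).trace

/-- Nets with a smooth discriminant curve. -/
def S_DISC : Prop := ∀ Q : Fin 3 → Matrix (Fin 4) (Fin 4) ℂ, (∀ k, (Q k).IsSymm) →
  (∀ l : Fin 3 → ℂ, l ≠ 0 → eval l (disc Q) = 0 → ∃ k, eval l (pderiv k (disc Q)) ≠ 0) →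
  RegA Q ∧ RegB Q

/-- The singular lines of the complex: linear algebra of the restricted net. -/
def S_SINGL : Prop := ∀ Q : Fin 3 → Matrix (Fin 4) (Fin 4) ℂ, (∀ k, (Q k).IsSymm) → RegA Q →
  RegB Q → ∀ x y : Fin 4 → ℂ, LinearIndependent ℂ ![x, y] → (NN Q x y).det = 0 →
  (∀ ξ η : Fin 4 → ℂ, ((NN Q x y).adjugate * NN' Q x y ξ η).trace = 0) →
  ∃ x' y' : Fin 4 → ℂ, (∀ k, qf (Q k) x' = 0) ∧ (∀ k, qf (Q k) y' = 0) ∧
    LinearIndependent ℂ ![x', y'] ∧ plu x y = plu x' y'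

/-- A decomposable vector on the complex is singular if and only if the differential vanishes on all the
tangent vectors. -/
def S_SMT : Prop := ∀ Q : Fin 3 → Matrix (Fin 4) (Fin 4) ℂ, (∀ k, (Q k).IsSymm) →
  ∀ x y : Fin 4 → ℂ, LinearIndependent ℂ ![x, y] →
  (¬ SmoothAt (NetK Q) (plu x y) ↔
    ∀ ξ η : Fin 4 → ℂ, ((NN Q x y).adjugate * NN' Q x y ξ η).trace = 0)

/-- The singular points are the lines through two base points. -/
def S_SING : Prop := ∀ Q : Fin 3 → Matrix (Fin 4) (Fin 4) ℂ, (∀ k, (Q k).IsSymm) → RegA Q →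
  RegB Q → ∀ v ∈ Cone (NetK Q), ¬ SmoothAt (NetK Q) v →
  ∃ x y : Fin 4 → ℂ, (∀ k, qf (Q k) x = 0) ∧ (∀ k, qf (Q k) y = 0) ∧
    LinearIndependent ℂ ![x, y] ∧ v = plu x y

/-- The lines through two base points are singular points. -/
def S_SINGREV : Prop := ∀ Q : Fin 3 → Matrix (Fin 4) (Fin 4) ℂ, (∀ k, (Q k).IsSymm) →
  ∀ x y : Fin 4 → ℂ, (∀ k, qf (Q k) x = 0) → (∀ k, qf (Q k) y = 0) →
    LinearIndependent ℂ ![x, y] → plu x y ∈ Cone (NetK Q) ∧ ¬ SmoothAt (NetK Q) (plu x y)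

/-- Criterion for the hypotheses on the cubic. -/
def S_GOOD : Prop := ∀ Q : Fin 3 → Matrix (Fin 4) (Fin 4) ℂ, (∀ k, (Q k).IsSymm) → RegA Q →
  RegB Q → ∀ P : Fin 8 → Fin 4 → ℂ,
  (∀ e : Fin 4 → ℂ, e ≠ 0 → (∀ k, qf (Q k) e = 0) → ∃ i, ∃ c : ℂ, e = c • P i) →
  (∀ j : Fin 3, ∃ x : Fin 3 → ℂ,
    (NN Q ![x 0, x 1, x 2, 1] ![(Pi.single j 1 : Fin 3 → ℂ) 0, (Pi.single j 1 : Fin 3 → ℂ) 1,
      (Pi.single j 1 : Fin 3 → ℂ) 2, 0]).det ≠ 0) →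
  Good (NetK Q)

/-- The points of the cone are the lines contained in a member of the net. -/
def S_CONE : Prop := ∀ Q : Fin 3 → Matrix (Fin 4) (Fin 4) ℂ, (∀ k, (Q k).IsSymm) →
  ∀ (v : Fin 6 → ℂ) (hv : v ≠ 0), v ∈ Cone (NetK Q) ↔ Projectivization.mk ℂ v hv ∈ ZZ Q

/-- Isomorphic varieties have isomorphic cones. -/
def S_BRIDGE : Prop := ∀ Q Q' : Fin 3 → Matrix (Fin 4) (Fin 4) ℂ, (∀ k, (Q k).IsSymm) →
  (∀ k, (Q' k).IsSymm) → IsoVar (ZZ Q) (ZZ Q') →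
  ∃ Φ Ψ : (Fin 6 → ℂ) → (Fin 6 → ℂ), CIso (Cone (NetK Q)) (Cone (NetK Q')) Φ Ψ

/-! ### The two nets -/

/-- The discriminants of the two nets. -/
def S_DISCAB : Prop := disc QA = C 49 * DD ∧ disc QB = C 49 * DD

/-- The discriminant is smooth. -/
def S_SMOOTH : Prop := ∀ l : Fin 3 → ℂ, l ≠ 0 → ∃ k, eval l (pderiv k DD) ≠ 0

/-- The base points of the first net. -/
def S_BASEA : Prop := ∀ e : Fin 4 → ℂ, (e ≠ 0 ∧ ∀ k, qf (QA k) e = 0) ↔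
  ∃ i, ∃ c : ℂ, c ≠ 0 ∧ e = c • PA i

/-- The base points of the second net. -/
def S_BASEB : Prop := ∀ e : Fin 4 → ℂ, (e ≠ 0 ∧ ∀ k, qf (QB k) e = 0) ↔
  ∃ i, ∃ c : ℂ, c ≠ 0 ∧ e = c • PB i

/-- A criterion for the number of base points. -/
def S_NCARD : Prop := ∀ (Q : Fin 3 → Matrix (Fin 4) (Fin 4) ℂ) (P : Fin 8 → Fin 4 → ℂ),
  (∀ e : Fin 4 → ℂ, (e ≠ 0 ∧ ∀ k, qf (Q k) e = 0) ↔ ∃ i, ∃ c : ℂ, c ≠ 0 ∧ e = c • P i) →
  (∀ i j, i ≠ j → LinearIndependent ℂ ![P i, P j]) → (base Q).ncard = 8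

/-- Both nets are regular. -/
def S_REGAB : Prop := Regular QA ∧ Regular QB

/-- No four points are coplanar. -/
def S_BRK : Prop :=
  (∀ i j k l : Fin 8, i ≠ j → i ≠ k → i ≠ l → j ≠ k → j ≠ l → k ≠ l → brk PAi i j k l ≠ 0) ∧
  (∀ i j k l : Fin 8, i ≠ j → i ≠ k → i ≠ l → j ≠ k → j ≠ l → k ≠ l → brk PBi i j k l ≠ 0)

/-- Seven different pairwise meeting pairs of elements of a set of eight elements have a common
element: a bijection of the pairs which maps meeting pairs to meeting pairs is given by a permutation of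
the elements. -/
def S_STAR : Prop := ∀ τ : Fin 8 → Fin 8 → Finset (Fin 8),
  (∀ i j, i ≠ j → (τ i j).card = 2) →
  (∀ i j, τ i j = τ j i) →
  (∀ i j k l, i ≠ j → k ≠ l → τ i j = τ k l → (i = k ∧ j = l) ∨ (i = l ∧ j = k)) →
  (∀ i j k, i ≠ j → i ≠ k → (τ i j ∩ τ i k).Nonempty) →
  ∃ σ : Equiv.Perm (Fin 8), ∀ i j, i ≠ j → τ i j = {σ i, σ j}

/-- A linear map which preserves the Pluecker quadric and maps the lines `P i P j` to the lines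
`P' k P' l` comes from a permutation of the points which preserves the cross ratios. -/
def S_PAIRS : Prop := ∀ (P P' : Fin 8 → Fin 4 → ℂ) (T : Matrix (Fin 6) (Fin 6) ℂ) (c' : ℂ),
  IsUnit T.det → c' ≠ 0 → (∀ v, eval (T *ᵥ v) Gp = c' * eval v Gp) →
  (∀ i j k l : Fin 8, i ≠ j → i ≠ k → i ≠ l → j ≠ k → j ≠ l → k ≠ l → brk P i j k l ≠ 0) →
  (∀ i j k l : Fin 8, i ≠ j → i ≠ k → i ≠ l → j ≠ k → j ≠ l → k ≠ l → brk P' i j k l ≠ 0) →
  (∀ i j, i ≠ j → ∃ (k l : Fin 8) (t : ℂ), k ≠ l ∧ T *ᵥ plu (P i) (P j) = t • plu (P' k) (P' l)) →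
  ∃ σ : Equiv.Perm (Fin 8), ∀ i j k l m n : Fin 8, i ≠ j → i ≠ k → i ≠ l → i ≠ m → i ≠ n → j ≠ k →
    j ≠ l → j ≠ m → j ≠ n → k ≠ l → k ≠ m → k ≠ n → l ≠ m → l ≠ n → m ≠ n →
    brk P i j k l * brk P i j m n * (brk P' (σ i) (σ j) (σ k) (σ m) * brk P' (σ i) (σ j) (σ l) (σ n))
      = brk P i j k m * brk P i j l n *
        (brk P' (σ i) (σ j) (σ k) (σ l) * brk P' (σ i) (σ j) (σ m) (σ n))

/-- The cross ratio `7` does not occur for the second octad. -/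
def S_CR : Prop := ∀ i j k l m n : Fin 8, i ≠ j → i ≠ k → i ≠ l → i ≠ m → i ≠ n → j ≠ k →
    j ≠ l → j ≠ m → j ≠ n → k ≠ l → k ≠ m → k ≠ n → l ≠ m → l ≠ n → m ≠ n →
    brk PBi i j k l * brk PBi i j m n ≠ 7 * (brk PBi i j k m * brk PBi i j l n)

/-- The cross ratio `7` occurs for the first octad. -/
def S_CRA : Prop := brk PAi 0 4 1 2 * brk PAi 0 4 7 6 = 7 * (brk PAi 0 4 1 7 * brk PAi 0 4 2 6)

/-- The two cones are not isomorphic. -/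
def S_NOCISO : Prop := ¬ ∃ Φ Ψ : (Fin 6 → ℂ) → (Fin 6 → ℂ),
  CIso (Cone (NetK QA)) (Cone (NetK QB)) Φ Ψ

/-- The identity is an isomorphism. -/
def S_REFL : Prop := ∀ (m : ℕ) (V : Set (ℙ ℂ (Fin m → ℂ))), IsoVar V V

/-- The final statement. -/
def S_FINAL : Prop := (∃ Q Q' : Fin 3 → Matrix (Fin 4) (Fin 4) ℂ, Regular Q ∧ Regular Q' ∧
    disc Q = disc Q' ∧ ¬ IsoVar (ZZ Q) (ZZ Q')) ∧
  ¬ ∀ Q Q' : Fin 3 → Matrix (Fin 4) (Fin 4) ℂ, Regular Q → Regular Q' →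
    IsoVar (discCurve Q) (discCurve Q') → IsoVar (ZZ Q) (ZZ Q')

end Pool.Agent.H892.ZL
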