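import Pool.Agent.H892.ZL.Defs

set_option autoImplicit false

/-!
# Lines on the quadrics of a net: statements of the lemmas, part 1

The threefold `Z = {G = K = 0}` in `P^5`, `G` the Pluecker quadric, `K` a cubic; an isomorphism of two
such threefolds is the restriction of a linear map of `P^5`.
-/

namespace Pool.Agent.H892.ZL

open MvPolynomial Matrix

/-- The polar form of the Pluecker quadric. -/
def Bf {R : Type*} [CommRing R] (p u : Fin 6 → R) : R :=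
  p 5 * u 0 - p 4 * u 1 + p 3 * u 2 + p 2 * u 3 - p 1 * u 4 + p 0 * u 5

/-- The weights of the grading by the degree in `y`. -/
def wty : Fin 3 ⊕ Fin 3 → ℕ := Sum.elim (fun _ => 0) (fun _ => 1)

/-- A polynomial in `x` as a polynomial in `x` and `y`. -/
noncomputable def inx (s : MvPolynomial (Fin 3) ℂ) : SA := rename Sum.inl s

/-- The variable `y j`. -/
noncomputable def vy (j : Fin 3) : SA := X (Sum.inr j)

/-- The derivation `∑ y_i ∂/∂x_i`. -/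
noncomputable def nab (A : SA) : SA := ∑ i : Fin 3, vy i * pderiv (Sum.inl i) A

/-! ### Linear algebra -/

def S_LA : Prop := ∀ (F : Type) [Field F] (X : Matrix (Fin 4) (Fin 6) F) (Y : Matrix (Fin 2) (Fin 6) F),
  Y * Xᵀ = 0 → (∃ L, D6 L Y ≠ 0) → ∃ w : F, ∀ L, (L * Xᵀ).det = w * D6 L Y

def S_LA2 : Prop := ∀ (F : Type) [Field F] (X : Matrix (Fin 4) (Fin 6) F),
  LinearIndependent F (fun i => X i) → ∃ L : Matrix (Fin 4) (Fin 6) F, (L * Xᵀ).det ≠ 0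

def S_D6 : Prop := ∀ (F : Type) [Field F] (Y : Matrix (Fin 2) (Fin 6) F),
  (∃ L, D6 L Y ≠ 0) ↔ ∀ a b : F, (∀ j, a * Y 0 j + b * Y 1 j = 0) → a = 0 ∧ b = 0

/-- The tangent space of the Pluecker quadric in the affine chart. -/
def S_TANA : Prop := ∀ (F : Type) [Field F] (x y : Fin 3 → F), y ≠ 0 → ∀ u : Fin 6 → F,
  Bf (aff x y) u = 0 → ∃ ξ η : Fin 3 → F, u = daff x y ξ η

/-- The tangent space of the Pluecker quadric. -/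
def S_TAN : Prop := ∀ (F : Type) [Field F] (x y : Fin 4 → F), LinearIndependent F ![x, y] →
  ∀ u : Fin 6 → F, Bf (plu x y) u = 0 → ∃ ξ η : Fin 4 → F, u = plu ξ y + plu x η

/-- Decomposable vectors. -/
def S_DEC : Prop := ∀ v : Fin 6 → ℂ, v ≠ 0 → eval v Gp = 0 →
  ∃ x y : Fin 4 → ℂ, LinearIndependent ℂ ![x, y] ∧ v = plu x y

/-- Decomposable vectors in the chart. -/
def S_DECA : Prop := ∀ (F : Type) [Field F] (v : Fin 6 → F), (v 2 ≠ 0 ∨ v 4 ≠ 0 ∨ v 5 ≠ 0) →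
  v 0 * v 5 - v 1 * v 4 + v 2 * v 3 = 0 → ∃ x y : Fin 3 → F, y ≠ 0 ∧ v = aff x y

/-- Chain rule in the chart: the value of the gradient of `kap K` at a point `(x, y)` of `E^3 × E^3`. -/
def S_CHAIN : Prop := ∀ (E : Type) [CommRing E] [Algebra ℂ E] (K : MvPolynomial (Fin 6) ℂ)
  (x y ξ η : Fin 3 → E),
  ∑ j, aeval (Sum.elim x y) (pderiv (Sum.inl j) (kap K)) * ξ j +
    ∑ j, aeval (Sum.elim x y) (pderiv (Sum.inr j) (kap K)) * η j =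
  ∑ I, grad K (aff x y) I * daff x y ξ η I

/-- A linear combination with constant coefficients of the Pluecker coordinates of the generic line
vanishes only if it is trivial. -/
def S_LIND : Prop := ∀ c : Fin 6 → ℂ, ∑ I, C (c I) * gp I = 0 → c = 0

/-! ### The chart hypersurface -/

def S_EXPT : Prop := ∀ K : MvPolynomial (Fin 6) ℂ, K.IsHomogeneous 3 → ∀ x : Fin 3 → ℂ,
  ∃ y : Fin 3 → ℂ, y ≠ 0 ∧ eval (pt x y) (kap K) = 0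

def S_SX : Prop := ∀ K, Good K → ∃ s : MvPolynomial (Fin 3) ℂ, s ≠ 0 ∧ ∀ x y : Fin 3 → ℂ, y ≠ 0 →
  aff x y ∈ Cone K → ¬ SmoothAt K (aff x y) → eval x s = 0

/-- `kap K` is homogeneous of degree `3` in `y`. -/
def S_KAPH : Prop := ∀ (n : ℕ) (K : MvPolynomial (Fin 6) ℂ), K.IsHomogeneous n →
  IsWeightedHomogeneous wty (kap K) n

/-- The factors of a weighted homogeneous polynomial are weighted homogeneous. -/
def S_HOMF : Prop := ∀ (f g : SA) (n : ℕ), f * g ≠ 0 → IsWeightedHomogeneous wty (f * g) n →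
  ∃ a b : ℕ, a + b = n ∧ IsWeightedHomogeneous wty f a ∧ IsWeightedHomogeneous wty g b

/-- No factor of `kap K` depends on `x` only. -/
def S_IRR0 : Prop := ∀ K, Good K → ∀ f : MvPolynomial (Fin 3) ℂ, inx f ∣ kap K → IsUnit f

/-- `kap K` has no factor of degree `1` in `y`. -/
def S_IRR1 : Prop := ∀ K, Good K → ∀ f g : SA, IsWeightedHomogeneous wty f 1 →
  IsWeightedHomogeneous wty g 2 → kap K ≠ f * g

def S_IRR : Prop := ∀ K, Good K → Prime (kap K)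

def S_NULL : Prop := ∀ K, Good K → Prime (kap K) → ∀ A : SA,
  (∀ x y : Fin 3 → ℂ, y ≠ 0 → eval (pt x y) (kap K) = 0 → eval (pt x y) A = 0) → kap K ∣ A

/-! ### The generic point and the residue form -/

def S_DERIV : Prop := ∀ k : SA, Prime k → ∃ (E : Type) (_ : Field E) (_ : Algebra ℂ E)
  (π : SA →ₐ[ℂ] E), GenPt k E π ∧
  ∀ t : Fin 3 ⊕ Fin 3 → E, ∑ j, π (pderiv j k) * t j = 0 →
    ∃ δ : Derivation ℂ E E, ∀ j, δ (π (X j)) = t j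

def S_DER : Prop := ∀ K, Good K → ∃ (E : Type) (_ : Field E) (_ : Algebra ℂ E)
  (π : SA →ₐ[ℂ] E) (δ : Fin 3 → Derivation ℂ E E) (w : E), GenPt (kap K) E π ∧ w ≠ 0 ∧
    IsW δ K (fun I => π (gp I)) w

def S_SC : Prop := ∀ (E : Type) [Field E] [Algebra ℂ E] (δ : Fin 3 → Derivation ℂ E E)
  (K : MvPolynomial (Fin 6) ℂ) (P : Fin 6 → E) (w t : E), K.IsHomogeneous 3 → IsW δ K P w → t ≠ 0 →
  IsW δ K (t • P) (t * w)

def S_ISW : Prop := ∀ (E : Type) [Field E] [Algebra ℂ E] (δ : Fin 3 → Derivation ℂ E E)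
  (K : MvPolynomial (Fin 6) ℂ) (R : Fin 6 → E), K.IsHomogeneous 3 → aeval R Gp = 0 → aeval R K = 0 →
  (∃ L, D6 L (YY K R) ≠ 0) → ∃ w, IsW δ K R w

/-- The local ring at a specialization, with the values of its elements, is an algebra. -/
def S_INL : Prop := ∀ (E : Type) [Field E] [Algebra ℂ E] (q : Fin 6 → E) (c : Fin 6 → ℂ),
  (∀ A : MvPolynomial (Fin 6) ℂ, aeval q A = 0 → eval c A = 0) →
  ∃ S : Subalgebra ℂ (E × ℂ),
    (∀ r a, (r, a) ∈ S ↔ ∃ A B : MvPolynomial (Fin 6) ℂ, eval c B ≠ 0 ∧ aeval q B ≠ 0 ∧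
      r * aeval q B = aeval q A ∧ a * eval c B = eval c A) ∧
    (∀ j, (q j, c j) ∈ S) ∧ (∀ r a, (r, a) ∈ S → a ≠ 0 → r ≠ 0 ∧ (r⁻¹, a⁻¹) ∈ S) ∧
    (∀ r, InLoc q c r ↔ ∃ a, (r, a) ∈ S)

def S_CL : Prop := ∀ (E : Type) [Field E] [Algebra ℂ E] (δ : Fin 3 → Derivation ℂ E E)
  (K : MvPolynomial (Fin 6) ℂ) (q : Fin 6 → E) (c : Fin 6 → ℂ) (w : E) (M : Fin 6), q M = 1 →
  IsW δ K q w → (∀ A : MvPolynomial (Fin 6) ℂ, aeval q A = 0 → eval c A = 0) →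
  ∀ u : Fin 3 → E, (∀ j, InLoc q c (u j)) →
    ∃ ζ, InLoc q c ζ ∧ (Matrix.of fun i j => δ i (u j)).det = w * ζ

/-- Regularity of `w / w'`, affine version: `p` and `q` are birational to each other, `p ↦ c`, `q ↦ c'`. -/
def S_LOCA : Prop := ∀ (E : Type) [Field E] [Algebra ℂ E] (δ : Fin 3 → Derivation ℂ E E)
  (K K' : MvPolynomial (Fin 6) ℂ) (p q : Fin 6 → E) (w w' : E) (c c' : Fin 6 → ℂ) (M M' : Fin 6)
  (F H : Fin 6 → MvPolynomial (Fin 6) ℂ) (L : Matrix (Fin 4) (Fin 6) ℂ),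
  p M = 1 → q M' = 1 → IsW δ K p w → IsW δ K' q w' → w ≠ 0 →
  (∀ A : MvPolynomial (Fin 6) ℂ, aeval p A = 0 → eval c A = 0) →
  eval c (F M') ≠ 0 → (∀ j, q j * aeval p (F M') = aeval p (F j)) →
  (∀ j, c' j * eval c (F M') = eval c (F j)) →
  eval c' (H M) ≠ 0 → (∀ j, p j * aeval q (H M) = aeval q (H j)) →
  D6 L (YY K c) ≠ 0 → w' ≠ 0 ∧ InLoc p c (w / w') ∧ ∀ j, InLoc p c (q j)

/-- Homogenization with respect to the variable `X M`. -/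
def S_HOMOG : Prop := ∀ (M : Fin 6) (A : MvPolynomial (Fin 6) ℂ) (n : ℕ), A.totalDegree ≤ n →
  ∃ H : MvPolynomial (Fin 6) ℂ, H.IsHomogeneous n ∧
    ∀ (E : Type) [Field E] [Algebra ℂ E] (P : Fin 6 → E), P M ≠ 0 →
      aeval P H = P M ^ n * aeval (fun i => P i / P M) A

/-- Regularity of `(w / w') R` at smooth points. -/
def S_LOC : Prop := ∀ (E : Type) [Field E] [Algebra ℂ E] (δ : Fin 3 → Derivation ℂ E E)
  (K K' : MvPolynomial (Fin 6) ℂ) (P R : Fin 6 → E) (w w' : E) (v : Fin 6 → ℂ) (d e : ℕ)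
  (f g : Fin 6 → MvPolynomial (Fin 6) ℂ),
  K.IsHomogeneous 3 → K'.IsHomogeneous 3 → IsW δ K P w → IsW δ K' R w' → w ≠ 0 →
  (∀ (n : ℕ) (A : MvPolynomial (Fin 6) ℂ), A.IsHomogeneous n → aeval P A = 0 → eval v A = 0) →
  (∀ i, (f i).IsHomogeneous d) → (∀ i, (g i).IsHomogeneous e) →
  Prop2 (fun i => aeval P (f i)) R → R ≠ 0 → Prop2 (fun i => aeval R (g i)) P →
  (∃ i, eval v (f i) ≠ 0) → (∃ i, eval (fun j => eval v (f j)) (g i) ≠ 0) →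
  Prop2 (fun i => eval (fun j => eval v (f j)) (g i)) v → v ≠ 0 → SmoothAt K v →
  w' ≠ 0 ∧ ∀ I, ∃ (n : ℕ) (A B : MvPolynomial (Fin 6) ℂ), A.IsHomogeneous (n + 1) ∧
    B.IsHomogeneous n ∧ eval v B ≠ 0 ∧ w / w' * R I * aeval P B = aeval P A

/-! ### Extension of sections -/

/-- Nullstellensatz multipliers. -/
def S_N1 : Prop := ∀ K, Good K → Prime (kap K) → ∀ s : MvPolynomial (Fin 3) ℂ, s ≠ 0 →
  ∀ (e : ℕ) (A₁ B₁ : MvPolynomial (Fin 6) ℂ), A₁.IsHomogeneous (e + 1) → B₁.IsHomogeneous e →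
  ¬ kap K ∣ aeval gp B₁ →
  (∀ x y : Fin 3 → ℂ, y ≠ 0 → eval (pt x y) (kap K) = 0 → eval x s ≠ 0 →
    ∃ (n : ℕ) (A B : MvPolynomial (Fin 6) ℂ), A.IsHomogeneous (n + 1) ∧ B.IsHomogeneous n ∧
      eval (aff x y) B ≠ 0 ∧ kap K ∣ aeval gp A₁ * aeval gp B - aeval gp A * aeval gp B₁) →
  ∃ N : ℕ, ∀ j : Fin 3, ∃ h : SA, IsWeightedHomogeneous wty h (N + 1) ∧
    kap K ∣ (inx s * vy j) ^ N * aeval gp A₁ - h * aeval gp B₁

/-- Pseudo-division by `kap K` with respect to `y 0`. -/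
def S_N2 : Prop := ∀ K, Good K → Prime (kap K) → ∀ (e : ℕ) (A B : SA), ¬ kap K ∣ B →
  IsWeightedHomogeneous wty A (e + 1) → IsWeightedHomogeneous wty B e →
  ∀ (N : ℕ) (s : MvPolynomial (Fin 3) ℂ), s ≠ 0 →
  (∀ j : Fin 3, ∃ h : SA, IsWeightedHomogeneous wty h (N + 1) ∧
    kap K ∣ (inx s * vy j) ^ N * A - h * B) →
  ∃ (c : MvPolynomial (Fin 3) ℂ) (r : Fin 3 → MvPolynomial (Fin 3) ℂ), c ≠ 0 ∧
    kap K ∣ inx c * A - (∑ j, inx (r j) * vy j) * B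

/-- The quotient is constant along the lines. -/
def S_N3 : Prop := ∀ K, Good K → Prime (kap K) → ∀ (A₁ B₁ : MvPolynomial (Fin 6) ℂ),
  ¬ kap K ∣ aeval gp B₁ →
  ∀ (c : MvPolynomial (Fin 3) ℂ) (r : Fin 3 → MvPolynomial (Fin 3) ℂ),
  kap K ∣ inx c * aeval gp A₁ - (∑ j, inx (r j) * vy j) * aeval gp B₁ →
  inx c * nab (∑ j, inx (r j) * vy j) = nab (inx c) * (∑ j, inx (r j) * vy j)

/-- Solution of the Killing equations. -/
def S_N4 : Prop := ∀ (c : MvPolynomial (Fin 3) ℂ) (r : Fin 3 → MvPolynomial (Fin 3) ℂ), c ≠ 0 →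
  inx c * nab (∑ j, inx (r j) * vy j) = nab (inx c) * (∑ j, inx (r j) * vy j) →
  ∃ d : Fin 6 → ℂ, ∑ j, inx (r j) * vy j = inx c * ∑ I, C (d I) * gp I

def S_NORM : Prop := ∀ K, Good K → Prime (kap K) → ∀ s : MvPolynomial (Fin 3) ℂ, s ≠ 0 →
  ∀ (e : ℕ) (A₁ B₁ : MvPolynomial (Fin 6) ℂ), A₁.IsHomogeneous (e + 1) → B₁.IsHomogeneous e →
  ¬ kap K ∣ aeval gp B₁ →
  (∀ x y : Fin 3 → ℂ, y ≠ 0 → eval (pt x y) (kap K) = 0 → eval x s ≠ 0 →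
    ∃ (n : ℕ) (A B : MvPolynomial (Fin 6) ℂ), A.IsHomogeneous (n + 1) ∧ B.IsHomogeneous n ∧
      eval (aff x y) B ≠ 0 ∧ kap K ∣ aeval gp A₁ * aeval gp B - aeval gp A * aeval gp B₁) →
  ∃ c : Fin 6 → ℂ, kap K ∣ aeval gp A₁ - (∑ I, C (c I) * gp I) * aeval gp B₁

/-! ### The isomorphism -/

/-- The image of the generic point. -/
def S_R : Prop := ∀ (K K' : MvPolynomial (Fin 6) ℂ) (Φ Ψ : (Fin 6 → ℂ) → (Fin 6 → ℂ)), Good K → K'.IsHomogeneous 3 →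
  Prime (kap K) → CIso (Cone K) (Cone K') Φ Ψ →
  ∀ (E : Type) [Field E] [Algebra ℂ E] (π : SA →ₐ[ℂ] E), GenPt (kap K) E π →
  ∃ R : Fin 6 → E, R ≠ 0 ∧ aeval R Gp = 0 ∧ aeval R K' = 0 ∧
    (∀ (n : ℕ) (A : MvPolynomial (Fin 6) ℂ), A.IsHomogeneous n →
      (aeval R A = 0 ↔ ∀ x y : Fin 3 → ℂ, y ≠ 0 → eval (pt x y) (kap K) = 0 →
        eval (Φ (aff x y)) A = 0)) ∧
    (∀ d f, Rep (Cone K) Φ d f → Prop2 (fun i => aeval (fun I => π (gp I)) (f i)) R) ∧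
    (∀ d g, Rep (Cone K') Ψ d g → Prop2 (fun i => aeval R (g i)) (fun I => π (gp I)))

/-- The generic point does not go to a singular point. -/
def S_RK : Prop := ∀ (K K' : MvPolynomial (Fin 6) ℂ) (Φ Ψ : (Fin 6 → ℂ) → (Fin 6 → ℂ)), Good K →
  Good K' → CIso (Cone K) (Cone K') Φ Ψ →
  ∃ (x y : Fin 3 → ℂ), y ≠ 0 ∧ eval (pt x y) (kap K) = 0 ∧ SmoothAt K' (Φ (aff x y))

/-- An isomorphism is linear. -/
def S_T : Prop := ∀ (K K' : MvPolynomial (Fin 6) ℂ) (Φ Ψ : (Fin 6 → ℂ) → (Fin 6 → ℂ)), Good K →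
  Good K' → CIso (Cone K) (Cone K') Φ Ψ → ∃ T : Matrix (Fin 6) (Fin 6) ℂ,
    (∀ x y : Fin 3 → ℂ, y ≠ 0 → eval (pt x y) (kap K) = 0 →
      Prop2 (T *ᵥ aff x y) (Φ (aff x y))) ∧
    ∃ x y : Fin 3 → ℂ, y ≠ 0 ∧ eval (pt x y) (kap K) = 0 ∧
      ((T *ᵥ aff x y) 2 ≠ 0 ∨ (T *ᵥ aff x y) 4 ≠ 0 ∨ (T *ᵥ aff x y) 5 ≠ 0)

/-- A linear map preserving the decomposable vectors up to scalars is a scalar. -/
def S_SCAL : Prop := ∀ M : Matrix (Fin 6) (Fin 6) ℂ,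
  (∀ a b, (∑ I, C (M a I) * gp I) * gp b = (∑ I, C (M b I) * gp I) * gp a) →
  ∃ c : ℂ, M = c • (1 : Matrix (Fin 6) (Fin 6) ℂ)

/-- The linear maps of both directions are inverse to each other up to a non-zero scalar. -/
def S_INV : Prop := ∀ (K K' : MvPolynomial (Fin 6) ℂ) (Φ Ψ : (Fin 6 → ℂ) → (Fin 6 → ℂ)), Good K →
  Good K' → CIso (Cone K) (Cone K') Φ Ψ → ∀ T T' : Matrix (Fin 6) (Fin 6) ℂ,
    (∀ x y : Fin 3 → ℂ, y ≠ 0 → eval (pt x y) (kap K) = 0 → Prop2 (T *ᵥ aff x y) (Φ (aff x y))) →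
    (∃ x y : Fin 3 → ℂ, y ≠ 0 ∧ eval (pt x y) (kap K) = 0 ∧
      ((T *ᵥ aff x y) 2 ≠ 0 ∨ (T *ᵥ aff x y) 4 ≠ 0 ∨ (T *ᵥ aff x y) 5 ≠ 0)) →
    (∀ x y : Fin 3 → ℂ, y ≠ 0 → eval (pt x y) (kap K') = 0 → Prop2 (T' *ᵥ aff x y) (Ψ (aff x y))) →
    (∃ x y : Fin 3 → ℂ, y ≠ 0 ∧ eval (pt x y) (kap K') = 0 ∧
      ((T' *ᵥ aff x y) 2 ≠ 0 ∨ (T' *ᵥ aff x y) 4 ≠ 0 ∨ (T' *ᵥ aff x y) 5 ≠ 0)) →
    ∃ c : ℂ, c ≠ 0 ∧ T' * T = c • (1 : Matrix (Fin 6) (Fin 6) ℂ)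

/-- A quadratic form that vanishes on the decomposable vectors is a multiple of `G`. -/
def S_QUAD : Prop := ∀ A : MvPolynomial (Fin 6) ℂ, A.IsHomogeneous 2 → aeval gp A = 0 →
  ∃ c : ℂ, A = C c * Gp

def S_LIN : Prop := ∀ (K K' : MvPolynomial (Fin 6) ℂ) (Φ Ψ : (Fin 6 → ℂ) → (Fin 6 → ℂ)), Good K →
  Good K' → CIso (Cone K) (Cone K') Φ Ψ → ∃ (T : Matrix (Fin 6) (Fin 6) ℂ) (c c' : ℂ),
    IsUnit T.det ∧ c ≠ 0 ∧ c' ≠ 0 ∧ (∀ v, eval (T *ᵥ v) Gp = c' * eval v Gp) ∧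
    ∀ x y : Fin 3 → ℂ, eval (T *ᵥ aff x y) K' = c * eval (aff x y) K

/-- Singular points go to singular points. -/
def S_TSING : Prop := ∀ (K K' : MvPolynomial (Fin 6) ℂ) (T : Matrix (Fin 6) (Fin 6) ℂ) (c c' : ℂ),
  K.IsHomogeneous 3 → K'.IsHomogeneous 3 →
    IsUnit T.det → c ≠ 0 → c' ≠ 0 → (∀ v, eval (T *ᵥ v) Gp = c' * eval v Gp) →
    (∀ x y : Fin 3 → ℂ, eval (T *ᵥ aff x y) K' = c * eval (aff x y) K) →
    ∀ x y : Fin 3 → ℂ, y ≠ 0 → aff x y ∈ Cone K → ¬ SmoothAt K (aff x y) →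
      T *ᵥ aff x y ∈ Cone K' ∧ ¬ SmoothAt K' (T *ᵥ aff x y)

end Pool.Agent.H892.ZL
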