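import Pool.Agent.H892.ZL.Stm

set_option autoImplicit false

/-!
# Basic facts on the affine chart and on proportional vectors
-/

namespace Pool.Agent.H892.ZL

open MvPolynomial Matrix

theorem aeval_gp {E : Type*} [CommRing E] [Algebra ℂ E] (π : SA →ₐ[ℂ] E) (A : MvPolynomial (Fin 6) ℂ) :
    aeval (fun I => π (gp I)) A = π (aeval gp A) := by
  have h : (aeval (fun I => π (gp I)) : MvPolynomial (Fin 6) ℂ →ₐ[ℂ] E) = π.comp (aeval gp) := by
    ext i
    simp
  rw [h]; rfl

theorem eval_pt_gp (x y : Fin 3 → ℂ) (I : Fin 6) : eval (pt x y) (gp I) = aff x y I := by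
  fin_cases I <;> simp [gp, aff, plu, pt]

theorem eval_pt_aeval (x y : Fin 3 → ℂ) (A : MvPolynomial (Fin 6) ℂ) :
    eval (pt x y) (aeval gp A) = eval (aff x y) A := by
  have h := aeval_gp (aeval (pt x y) : SA →ₐ[ℂ] ℂ) A
  have e : (fun I => (aeval (pt x y) : SA →ₐ[ℂ] ℂ) (gp I)) = aff x y := by
    funext I
    have := eval_pt_gp x y I
    simpa [MvPolynomial.coe_aeval_eq_eval] using this
  rw [e] at h
  simpa [MvPolynomial.coe_aeval_eq_eval] using h.symm

theorem eval_pt_kap (x y : Fin 3 → ℂ) (K : MvPolynomial (Fin 6) ℂ) :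
    eval (pt x y) (kap K) = eval (aff x y) K := eval_pt_aeval x y K

theorem aff_ne_zero {F : Type*} [CommRing F] {x y : Fin 3 → F} (hy : y ≠ 0) : aff x y ≠ 0 := by
  intro h
  apply hy
  funext j
  have h2 := congrFun h 2
  have h4 := congrFun h 4
  have h5 := congrFun h 5
  fin_cases j
  · simpa [aff, plu] using h2
  · simpa [aff, plu] using h4
  · simpa [aff, plu] using h5

theorem eval_Gp (v : Fin 6 → ℂ) : eval v Gp = v 0 * v 5 - v 1 * v 4 + v 2 * v 3 := by
  simp [Gp]

theorem eval_aff_Gp (x y : Fin 3 → ℂ) : eval (aff x y) Gp = 0 := by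
  rw [eval_Gp]
  simp [aff, plu]
  ring

theorem aff_mem_Cone {K : MvPolynomial (Fin 6) ℂ} {x y : Fin 3 → ℂ} (hy : y ≠ 0)
    (h : eval (pt x y) (kap K) = 0) : aff x y ∈ Cone K :=
  ⟨aff_ne_zero hy, eval_aff_Gp x y, by rw [← eval_pt_kap]; exact h⟩

theorem Prop2.exists_smul {F : Type*} [Field F] {n : ℕ} {u v : Fin n → F} (h : Prop2 u v) (hv : v ≠ 0) :
    ∃ t : F, u = t • v := by
  obtain ⟨j, hj⟩ : ∃ j, v j ≠ 0 := by
    by_contra hc
    push Not at hc
    exact hv (funext hc)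
  refine ⟨u j / v j, ?_⟩
  funext i
  have := h i j
  simp only [Pi.smul_apply, smul_eq_mul]
  field_simp
  linear_combination this

theorem Prop2.symm {F : Type*} [CommRing F] {n : ℕ} {u v : Fin n → F} (h : Prop2 u v) : Prop2 v u :=
  fun i j => by linear_combination - h i j

theorem Prop2.trans {F : Type*} [Field F] {n : ℕ} {u v w : Fin n → F} (h : Prop2 u v) (h' : Prop2 v w)
    (hv : v ≠ 0) : Prop2 u w := by
  obtain ⟨t, ht⟩ := h.exists_smul hv
  intro i j
  have := h' i j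
  rw [ht]
  simp only [Pi.smul_apply, smul_eq_mul]
  linear_combination t * this

theorem Prop2.smul_self {F : Type*} [CommRing F] {n : ℕ} (t : F) (v : Fin n → F) :
    Prop2 (t • v) v := fun i j => by
  simp only [Pi.smul_apply, smul_eq_mul]; ring

theorem aeval_hom_smul {E : Type*} [Field E] [Algebra ℂ E] {m n : ℕ} {A : MvPolynomial (Fin m) ℂ}
    (hA : A.IsHomogeneous n) (t : E) (v : Fin m → E) : aeval (t • v) A = t ^ n * aeval v A := by
  rw [MvPolynomial.aeval_def, MvPolynomial.aeval_def, MvPolynomial.eval₂_eq, MvPolynomial.eval₂_eq,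
    Finset.mul_sum]
  refine Finset.sum_congr rfl fun d hd => ?_
  have hdeg := hA (MvPolynomial.mem_support_iff.mp hd)
  have hd2 : ∑ i ∈ d.support, d i = n := by
    rw [← hdeg, Finsupp.weight_apply, Finsupp.sum]
    simp
  simp only [Pi.smul_apply, smul_eq_mul, mul_pow, Finset.prod_mul_distrib]
  rw [Finset.prod_pow_eq_pow_sum, hd2]
  ring

theorem eval_hom_smul {m n : ℕ} {A : MvPolynomial (Fin m) ℂ} (hA : A.IsHomogeneous n) (t : ℂ)
    (v : Fin m → ℂ) : eval (t • v) A = t ^ n * eval v A := by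
  have := aeval_hom_smul hA t v
  simpa [MvPolynomial.coe_aeval_eq_eval] using this

theorem Cone.smul {K : MvPolynomial (Fin 6) ℂ} (hK : K.IsHomogeneous 3) {v : Fin 6 → ℂ}
    (hv : v ∈ Cone K) {t : ℂ} (ht : t ≠ 0) : t • v ∈ Cone K := by
  refine ⟨smul_ne_zero ht hv.1, ?_, ?_⟩
  · rw [eval_Gp]
    have := hv.2.1
    rw [eval_Gp] at this
    simp only [Pi.smul_apply, smul_eq_mul]
    linear_combination t ^ 2 * this
  · rw [eval_hom_smul hK, hv.2.2, mul_zero]

end Pool.Agent.H892.ZL
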