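import Mathlib

set_option autoImplicit false

/-!
# Lines on the quadrics of a net: basic definitions
-/

namespace Pool.Agent.H892.ZL

open MvPolynomial Matrix

/-- The Plücker coordinates `(p01, p02, p03, p12, p13, p23)` of the line through `x` and `y`. -/
def plu {R : Type*} [CommRing R] (x y : Fin 4 → R) : Fin 6 → R :=
  ![x 0 * y 1 - x 1 * y 0, x 0 * y 2 - x 2 * y 0, x 0 * y 3 - x 3 * y 0,
    x 1 * y 2 - x 2 * y 1, x 1 * y 3 - x 3 * y 1, x 2 * y 3 - x 3 * y 2]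

/-- The Plücker quadric. -/
noncomputable def Gp : MvPolynomial (Fin 6) ℂ := X 0 * X 5 - X 1 * X 4 + X 2 * X 3

/-- The affine chart: the line through the point `(x, 1)` in the direction `(y, 0)`. -/
def aff {R : Type*} [CommRing R] (x y : Fin 3 → R) : Fin 6 → R :=
  plu ![x 0, x 1, x 2, 1] ![y 0, y 1, y 2, 0]

/-- The derivative of `aff` at `(x, y)` in the direction `(ξ, η)`. -/
def daff {R : Type*} [CommRing R] (x y ξ η : Fin 3 → R) : Fin 6 → R :=
  ![ξ 0 * y 1 + x 0 * η 1 - ξ 1 * y 0 - x 1 * η 0, ξ 0 * y 2 + x 0 * η 2 - ξ 2 * y 0 - x 2 * η 0, - η 0,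
    ξ 1 * y 2 + x 1 * η 2 - ξ 2 * y 1 - x 2 * η 1, - η 1, - η 2]

/-- The polynomial ring in the six variables `x` (`Sum.inl`) and `y` (`Sum.inr`). -/
abbrev SA : Type := MvPolynomial (Fin 3 ⊕ Fin 3) ℂ

/-- The generic line of the affine chart. -/
noncomputable def gp : Fin 6 → SA := aff (fun i => X (Sum.inl i)) (fun i => X (Sum.inr i))

/-- The equation of `K = 0` in the affine chart. -/
noncomputable def kap (K : MvPolynomial (Fin 6) ℂ) : SA := aeval gp K

/-- The point `(x, y)` of the affine chart. -/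
def pt (x y : Fin 3 → ℂ) : Fin 3 ⊕ Fin 3 → ℂ := Sum.elim x y

/-- The gradient of `A` at `p`. -/
noncomputable def grad {E : Type*} [CommRing E] [Algebra ℂ E] (A : MvPolynomial (Fin 6) ℂ)
    (p : Fin 6 → E) : Fin 6 → E := fun j => aeval p (pderiv j A)

/-- The `2 × 6` matrix of the gradients of `G` and `K`. -/
noncomputable def YY {E : Type*} [CommRing E] [Algebra ℂ E] (K : MvPolynomial (Fin 6) ℂ)
    (p : Fin 6 → E) : Matrix (Fin 2) (Fin 6) E := ![grad Gp p, grad K p]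

/-- The determinant of a `4 × 6` matrix on top of a `2 × 6` matrix. -/
noncomputable def D6 {E : Type*} [CommRing E] (L : Matrix (Fin 4) (Fin 6) E)
    (Y : Matrix (Fin 2) (Fin 6) E) : E :=
  ((Matrix.fromRows L Y).submatrix id (finSumFinEquiv (m := 4) (n := 2))).det

/-- The `4 × 6` matrix of a vector and its three derivatives. -/
def XX {E : Type*} [Field E] [Algebra ℂ E] (δ : Fin 3 → Derivation ℂ E E) (p : Fin 6 → E) :
    Matrix (Fin 4) (Fin 6) E := Fin.cons p (fun i j => δ i (p j))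

/-- `w` is the value of the residue form of `G = K = 0` on the three derivations, at `p`. -/
def IsW {E : Type*} [Field E] [Algebra ℂ E] (δ : Fin 3 → Derivation ℂ E E)
    (K : MvPolynomial (Fin 6) ℂ) (p : Fin 6 → E) (w : E) : Prop :=
  ∀ L : Matrix (Fin 4) (Fin 6) E, (L * (XX δ p)ᵀ).det = w * D6 L (YY K p)

/-- The gradients of `G` and `K` at `v` are linearly independent. -/
def SmoothAt (K : MvPolynomial (Fin 6) ℂ) (v : Fin 6 → ℂ) : Prop :=
  ∃ L : Matrix (Fin 4) (Fin 6) ℂ, D6 L (YY K v) ≠ 0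

/-- The cone of the lines of the threefold `G = K = 0`. -/
def Cone (K : MvPolynomial (Fin 6) ℂ) : Set (Fin 6 → ℂ) :=
  {v | v ≠ 0 ∧ eval v Gp = 0 ∧ eval v K = 0}

/-- `u` and `v` are proportional. -/
def Prop2 {R : Type*} [CommRing R] {n : ℕ} (u v : Fin n → R) : Prop := ∀ i j, u i * v j = u j * v i

/-- Hypotheses on the cubic `K`: it is homogeneous of degree `3`, the three coordinate directions are
general, and the threefold `G = K = 0` has only finitely many singular points. -/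
structure Good (K : MvPolynomial (Fin 6) ℂ) : Prop where
  hom : K.IsHomogeneous 3
  lead : ∀ j : Fin 3, ∃ x : Fin 3 → ℂ, eval (pt x (Pi.single j 1)) (kap K) ≠ 0
  sing : ∃ S : Finset (Fin 6 → ℂ), ∀ v ∈ Cone K, ¬ SmoothAt K v → ∃ s ∈ S, s ≠ 0 ∧ Prop2 v s

/-- `π` is the generic point of the irreducible hypersurface `k = 0`. -/
structure GenPt (k : SA) (E : Type) [Field E] [Algebra ℂ E] (π : SA →ₐ[ℂ] E) : Prop where
  ker : ∀ A : SA, π A = 0 ↔ k ∣ A
  frac : ∀ e : E, ∃ A B : SA, π B ≠ 0 ∧ e * π B = π A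

/-- `r` is a rational function of `q`, regular at the specialization `c` of `q`. -/
def InLoc {E : Type*} [Field E] [Algebra ℂ E] (q : Fin 6 → E) (c : Fin 6 → ℂ) (r : E) : Prop :=
  ∃ A B : MvPolynomial (Fin 6) ℂ, eval c B ≠ 0 ∧ aeval q B ≠ 0 ∧ r * aeval q B = aeval q A

/-- The homogeneous polynomials `f i` of degree `d` represent the map `Φ` of cones, wherever they do not
all vanish. -/
def Rep (C : Set (Fin 6 → ℂ)) (Φ : (Fin 6 → ℂ) → (Fin 6 → ℂ)) (d : ℕ)
    (f : Fin 6 → MvPolynomial (Fin 6) ℂ) : Prop :=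
  (∀ i, (f i).IsHomogeneous d) ∧
    ∀ u ∈ C, (∃ i, eval u (f i) ≠ 0) → Prop2 (fun i => eval u (f i)) (Φ u)

/-- `Φ` and `Ψ` are mutually inverse isomorphisms of the projective varieties with the cones `C` and
`C'` (a map is given by a choice of representatives of the images of the points). -/
structure CIso (C C' : Set (Fin 6 → ℂ)) (Φ Ψ : (Fin 6 → ℂ) → (Fin 6 → ℂ)) : Prop where
  maps : ∀ v ∈ C, Φ v ∈ C'
  maps' : ∀ w ∈ C', Ψ w ∈ C
  compat : ∀ v ∈ C, ∀ c : ℂ, c ≠ 0 → Prop2 (Φ (c • v)) (Φ v)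
  compat' : ∀ w ∈ C', ∀ c : ℂ, c ≠ 0 → Prop2 (Ψ (c • w)) (Ψ w)
  inv : ∀ v ∈ C, Prop2 (Ψ (Φ v)) v
  inv' : ∀ w ∈ C', Prop2 (Φ (Ψ w)) w
  rep : ∀ v ∈ C, ∃ (d : ℕ) (f : Fin 6 → MvPolynomial (Fin 6) ℂ), Rep C Φ d f ∧
    ∃ i, eval v (f i) ≠ 0
  rep' : ∀ w ∈ C', ∃ (d : ℕ) (g : Fin 6 → MvPolynomial (Fin 6) ℂ), Rep C' Ψ d g ∧
    ∃ i, eval w (g i) ≠ 0

end Pool.Agent.H892.ZL
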