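import Pool.Agent.H892.ZL.Stm2

set_option autoImplicit false

/-!
# Final assembly
-/

namespace Pool.Agent.H892.ZL

open MvPolynomial Matrix

open scoped LinearAlgebra.Projectivization

theorem t_REFL : S_REFL := by
  intro m V
  refine ⟨Equiv.refl _, ?_, ?_⟩ <;>
  · intro v
    refine ⟨1, 0, fun i => X i, 1, fun i => isHomogeneous_X _ _, isHomogeneous_one _ _, by simp, ?_⟩
    intro u _
    have h1 : (fun i => eval u.1.rep (X i : MvPolynomial (Fin m) ℂ)) = u.1.rep := by
      funext i; simp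
    have h2 : (fun i => eval u.1.rep (X i : MvPolynomial (Fin m) ℂ)) ≠ 0 := by
      rw [h1]; exact u.1.rep_nonzero
    refine ⟨h2, ?_⟩
    have h3 : u.1 = Projectivization.mk ℂ u.1.rep u.1.rep_nonzero := u.1.mk_rep.symm
    simp only [Equiv.refl_apply, Equiv.refl_symm]
    conv_lhs => rw [h3]
    congr 1
    exact h1.symm

theorem t_FINAL (h1 : S_REGAB) (h2 : S_DISCAB) (h3 : S_BRIDGE) (h4 : S_NOCISO) : S_FINAL := by
  have hno : ¬ IsoVar (ZZ QA) (ZZ QB) := fun h => h4 (h3 QA QB h1.1.symm h1.2.symm h)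
  have hd : disc QA = disc QB := h2.1.trans h2.2.symm
  refine ⟨⟨QA, QB, h1.1, h1.2, hd, hno⟩, ?_⟩
  intro hall
  apply hno
  apply hall QA QB h1.1 h1.2
  have hc : discCurve QA = discCurve QB := by
    unfold discCurve
    rw [hd]
  rw [hc]
  exact t_REFL 3 _

end Pool.Agent.H892.ZL
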