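import Pool.Agent.H892.ZL.Bas

set_option autoImplicit false

/-!
# Extension of sections: assembly
-/

namespace Pool.Agent.H892.ZL

open MvPolynomial Matrix

theorem fac_aux {R : Type*} [CommRing R] (c A P Q B : R) (h : P = c * Q) :
    c * A - P * B = c * (A - Q * B) := by
  rw [h]; ring

theorem kap_zero {K : MvPolynomial (Fin 6) ℂ} (hK : K.IsHomogeneous 3) (x : Fin 3 → ℂ) :
    eval (pt x 0) (kap K) = 0 := by
  rw [eval_pt_kap]
  have h : aff x 0 = (0 : ℂ) • (0 : Fin 6 → ℂ) := by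
    funext i
    fin_cases i <;> simp [aff, plu]
  rw [h, eval_hom_smul hK]
  simp

theorem inx_eval (c : MvPolynomial (Fin 3) ℂ) (x y : Fin 3 → ℂ) :
    eval (pt x y) (inx c) = eval x c := by
  unfold inx pt
  rw [MvPolynomial.eval_rename, Sum.elim_comp_inl]

/-- Extension of sections. -/
theorem t_NORM (h1 : S_KAPH) (h2 : S_N1) (h3 : S_N2) (h4 : S_N3) (h5 : S_N4) : S_NORM := by
  intro K hG hP s hs e A₁ B₁ hA hB hBK hloc
  obtain ⟨N, hN⟩ := h2 K hG hP s hs e A₁ B₁ hA hB hBK hloc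
  obtain ⟨c, r, hc, hdvd⟩ := h3 K hG hP e (aeval gp A₁) (aeval gp B₁) hBK (h1 (e + 1) A₁ hA)
    (h1 e B₁ hB) N s hs hN
  obtain ⟨d, hd⟩ := h5 c r hc (h4 K hG hP A₁ B₁ hBK c r hdvd)
  refine ⟨d, ?_⟩
  have e1 := fac_aux (inx c) (aeval gp A₁) (∑ j, inx (r j) * vy j) (∑ I, C (d I) * gp I)
    (aeval gp B₁) hd
  have hdvd2 : kap K ∣ inx c * (aeval gp A₁ - (∑ I, C (d I) * gp I) * aeval gp B₁) := by
    rw [← e1]; exact hdvd
  refine (hP.dvd_or_dvd hdvd2).resolve_left fun h => hc ?_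
  obtain ⟨q, hq⟩ := h
  apply MvPolynomial.funext
  intro x
  have h6 := congrArg (eval (pt x 0)) hq
  rw [map_mul, kap_zero hG.hom, zero_mul, inx_eval] at h6
  rw [h6, map_zero]

end Pool.Agent.H892.ZL
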