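import Pool.Agent.H892.ZL.Bas

set_option autoImplicit false

/-!
# An isomorphism is linear
-/

namespace Pool.Agent.H892.ZL

open MvPolynomial Matrix

theorem Gp_hom : Gp.IsHomogeneous 2 := by
  unfold Gp
  refine ((?_ : IsHomogeneous _ 2).sub ?_).add ?_
  · exact (isHomogeneous_X ℂ 0).mul (isHomogeneous_X ℂ 5)
  · exact (isHomogeneous_X ℂ 1).mul (isHomogeneous_X ℂ 4)
  · exact (isHomogeneous_X ℂ 2).mul (isHomogeneous_X ℂ 3)

/-- The minors `D6` are given by polynomials. -/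
theorem exists_D6_poly {K : MvPolynomial (Fin 6) ℂ} (hK : K.IsHomogeneous 3)
    (L : Matrix (Fin 4) (Fin 6) ℂ) :
    ∃ D : MvPolynomial (Fin 6) ℂ, D.IsHomogeneous 3 ∧
      ∀ (E : Type) [Field E] [Algebra ℂ E] (p : Fin 6 → E),
        aeval p D = D6 (L.map (algebraMap ℂ E)) (YY K p) := by
  classical
  let Y : Matrix (Fin 2) (Fin 6) (MvPolynomial (Fin 6) ℂ) := ![fun j => pderiv j Gp, fun j => pderiv j K]
  refine ⟨D6 (L.map C) Y, ?_, ?_⟩
  · unfold D6
    rw [Matrix.det_apply]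
    refine IsHomogeneous.sum _ _ _ fun σ _ => ?_
    rw [Units.smul_def, zsmul_eq_mul]
    let n : Fin 4 ⊕ Fin 2 → ℕ := Sum.elim (fun _ => 0) (fun i => if i = 0 then 1 else 2)
    have h1 : (∏ i, (Matrix.fromRows (L.map C) Y).submatrix id
        (finSumFinEquiv (m := 4) (n := 2)) (σ i) i).IsHomogeneous (∑ i, n (σ i)) := by
      refine IsHomogeneous.prod _ _ _ fun i _ => ?_
      rcases h : σ i with a | b
      · simp only [Matrix.submatrix_apply, id, Matrix.fromRows_apply_inl, Matrix.map_apply, n, Sum.elim_inl]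
        exact isHomogeneous_C _ _
      · simp only [Matrix.submatrix_apply, id, Matrix.fromRows_apply_inr, n, Sum.elim_inr]
        fin_cases b
        · simpa [Y] using Gp_hom.pderiv (i := finSumFinEquiv i)
        · simpa [Y] using hK.pderiv (i := finSumFinEquiv i)
    have h2 : ∑ i, n (σ i) = 3 := by
      rw [Equiv.sum_comp σ n]
      simp [n, Fin.sum_univ_two]
    rw [h2] at h1
    have h3 := (isHomogeneous_C (Fin 6) (((Equiv.Perm.sign σ : ℤ) : ℂ))).mul h1
    rw [zero_add] at h3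
    have e : (C (((Equiv.Perm.sign σ : ℤ) : ℂ)) : MvPolynomial (Fin 6) ℂ) =
        ((Equiv.Perm.sign σ : ℤ) : MvPolynomial (Fin 6) ℂ) := by simp
    rw [e] at h3
    exact h3
  · intro E _ _ p
    unfold D6
    rw [AlgHom.map_det]
    congr 1
    ext a b
    rcases a with a | a
    · simp
    · fin_cases a <;> simp [Y, YY, grad]

/-- If the columns `2, 4, 5` of a `4 × 6` matrix vanish, then its rank is at most `3`. -/
theorem det_eq_zero_of_cols {E : Type*} [Field E] (X : Matrix (Fin 4) (Fin 6) E)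
    (h2 : ∀ i, X i 2 = 0) (h4 : ∀ i, X i 4 = 0) (h5 : ∀ i, X i 5 = 0)
    (L : Matrix (Fin 4) (Fin 6) E) : (L * Xᵀ).det = 0 := by
  have h0 : (Matrix.of fun i : Fin 4 => ![X i 0, X i 1, X i 3, 0]).det = 0 :=
    Matrix.det_eq_zero_of_column_eq_zero 3 fun i => by simp
  obtain ⟨c, hc, hcz⟩ := Matrix.exists_vecMul_eq_zero_iff.mpr h0
  apply Matrix.exists_mulVec_eq_zero_iff.mp
  refine ⟨c, hc, ?_⟩
  have e0 := congrFun hcz 0
  have e1 := congrFun hcz 1
  have e3 := congrFun hcz 2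
  simp only [Matrix.vecMul, dotProduct, Matrix.of_apply, Matrix.cons_val_zero, Matrix.cons_val_one,
    Matrix.cons_val, Pi.zero_apply] at e0 e1 e3
  have key : Xᵀ *ᵥ c = 0 := by
    funext j
    simp only [Matrix.mulVec, dotProduct, Matrix.transpose_apply, Pi.zero_apply]
    fin_cases j
    · simpa [mul_comm] using e0
    · simpa [mul_comm] using e1
    · simp [h2]
    · simpa [mul_comm] using e3
    · simp [h4]
    · simp [h5]
  rw [← Matrix.mulVec_mulVec, key, Matrix.mulVec_zero]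

theorem t_T (hIRR : S_IRR) (hNULL : S_NULL) (hSX : S_SX) (hEXPT : S_EXPT) (hDER : S_DER) (hR : S_R)
    (hRK : S_RK) (hISW : S_ISW) (hLOC : S_LOC) (hNORM : S_NORM) : S_T := by
  intro K K' Φ Ψ hK hK' hI
  have hpr : Prime (kap K) := hIRR K hK
  obtain ⟨E, instF, instA, π, δ, w, hπ, hw, hWP⟩ := hDER K hK
  obtain ⟨R, hR0, hGR, hKR, hiff, hf, hg⟩ := hR K K' Φ Ψ hK hK'.hom hpr hI E π hπ
  set P : Fin 6 → E := fun I => π (gp I) with hP
  have hPA : ∀ A : MvPolynomial (Fin 6) ℂ, aeval P A = π (aeval gp A) := fun A => aeval_gp π A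
  -- the image of the generic point is a smooth point
  obtain ⟨L₀, hL₀⟩ : ∃ L, D6 L (YY K' R) ≠ 0 := by
    obtain ⟨x, y, hy, hxy, L, hL⟩ := hRK K K' Φ Ψ hK hK' hI
    obtain ⟨D, hD, hDe⟩ := exists_D6_poly hK'.hom L
    refine ⟨L.map (algebraMap ℂ E), ?_⟩
    rw [← hDe E R]
    intro h0
    have h1 := (hiff 3 D hD).mp h0 x y hy hxy
    have h2 := hDe ℂ (Φ (aff x y))
    have h3 : L.map (algebraMap ℂ ℂ) = L := by ext i j; simp
    rw [h3] at h2
    apply hL
    rw [← h2]
    simpa [MvPolynomial.coe_aeval_eq_eval] using h1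
  obtain ⟨w', hWR⟩ := hISW E δ K' R hK'.hom hGR hKR ⟨L₀, hL₀⟩
  -- regularity at smooth points
  have hreg : ∀ x y : Fin 3 → ℂ, y ≠ 0 → eval (pt x y) (kap K) = 0 → SmoothAt K (aff x y) →
      w' ≠ 0 ∧ ∀ I, ∃ (n : ℕ) (A B : MvPolynomial (Fin 6) ℂ), A.IsHomogeneous (n + 1) ∧
      B.IsHomogeneous n ∧ eval (aff x y) B ≠ 0 ∧ w / w' * R I * aeval P B = aeval P A := by
    intro x y hy hxy hsm
    have hv : aff x y ∈ Cone K := aff_mem_Cone hy hxy
    set v := aff x y with hvdef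
    obtain ⟨d, f, hfRep, hfv⟩ := hI.rep v hv
    have hΦv : Φ v ∈ Cone K' := hI.maps v hv
    obtain ⟨e, g, hgRep, hgv⟩ := hI.rep' (Φ v) hΦv
    have hfp := hfRep.2 v hv hfv
    obtain ⟨t, ht⟩ := hfp.exists_smul hΦv.1
    have ht0 : t ≠ 0 := by
      rintro rfl
      obtain ⟨i, hi⟩ := hfv
      apply hi
      have := congrFun ht i
      simpa using this
    have hgf : ∀ i, eval (fun j => eval v (f j)) (g i) = t ^ e * eval (Φ v) (g i) := by
      intro i
      rw [ht]
      exact eval_hom_smul (hgRep.1 i) t (Φ v)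
    have hΨ : Prop2 (fun i => eval (Φ v) (g i)) v := by
      refine (hgRep.2 (Φ v) hΦv hgv).trans (hI.inv v hv) ?_
      exact (hI.maps' _ hΦv).1
    refine hLOC E δ K K' P R w w' v d e f g hK.hom hK'.hom hWP hWR hw ?_ hfRep.1 hgRep.1
      (hf d f hfRep) hR0 (hg e g hgRep) hfv ?_ ?_ hv.1 hsm
    · intro n A _ hA
      rw [hPA, hπ.ker] at hA
      obtain ⟨q, hq⟩ := hA
      have := eval_pt_aeval x y A
      rw [hvdef, ← this, hq, map_mul, hxy, zero_mul]
    · obtain ⟨i, hi⟩ := hgv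
      refine ⟨i, ?_⟩
      rw [hgf]
      exact mul_ne_zero (pow_ne_zero _ ht0) hi
    · intro i j
      show eval (fun j => eval v (f j)) (g i) * v j = eval (fun j => eval v (f j)) (g j) * v i
      rw [hgf, hgf]
      have := hΨ i j
      simp only at this
      linear_combination t ^ e * this
  -- a smooth point
  obtain ⟨s, hs0, hs⟩ := hSX K hK
  have hsmooth : ∀ x y : Fin 3 → ℂ, y ≠ 0 → eval (pt x y) (kap K) = 0 → eval x s ≠ 0 →
      SmoothAt K (aff x y) := by
    intro x y hy hxy hsx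
    by_contra hc
    exact hsx (hs x y hy (aff_mem_Cone hy hxy) hc)
  obtain ⟨x₀, hx₀⟩ : ∃ x₀, eval x₀ s ≠ 0 := by
    by_contra hc
    push Not at hc
    exact hs0 (MvPolynomial.funext (by simpa using hc))
  obtain ⟨y₀, hy₀, hxy₀⟩ := hEXPT K hK.hom x₀
  have hreg₀ := hreg x₀ y₀ hy₀ hxy₀ (hsmooth x₀ y₀ hy₀ hxy₀ hx₀)
  have hw' : w' ≠ 0 := hreg₀.1
  have hρ : w / w' ≠ 0 := div_ne_zero hw hw'
  -- linearity
  have hlin : ∀ I, ∃ c : Fin 6 → ℂ, w / w' * R I = ∑ J, algebraMap ℂ E (c J) * P J := by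
    intro I
    obtain ⟨e, A₁, B₁, hA₁, hB₁, hB₁v, hAB⟩ := hreg₀.2 I
    have hB₁P : aeval P B₁ ≠ 0 := by
      intro h0
      rw [hPA, hπ.ker] at h0
      obtain ⟨q, hq⟩ := h0
      apply hB₁v
      rw [← eval_pt_aeval, hq, map_mul, hxy₀, zero_mul]
    obtain ⟨c, hc⟩ := hNORM K hK hpr s hs0 e A₁ B₁ hA₁ hB₁
      (fun h => hB₁P (by rw [hPA, hπ.ker]; exact h)) (by
        intro x y hy hxy hsx
        obtain ⟨n, A, B, hA, hB, hBv, hABv⟩ := (hreg x y hy hxy (hsmooth x y hy hxy hsx)).2 I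
        refine ⟨n, A, B, hA, hB, hBv, ?_⟩
        rw [← hπ.ker, map_sub, map_mul, map_mul, ← hPA, ← hPA, ← hPA, ← hPA, ← hAB, ← hABv]
        ring)
    refine ⟨c, ?_⟩
    rw [← hπ.ker, map_sub, map_mul, map_sum, ← hPA, ← hPA, ← hAB] at hc
    have h2 : (w / w' * R I - ∑ J, algebraMap ℂ E (c J) * P J) * aeval P B₁ = 0 := by
      rw [sub_mul, ← hc]
      congr 2
      refine Finset.sum_congr rfl fun J _ => ?_
      rw [map_mul]
      congr 1
      exact (π.commutes (c J)).symm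
    rcases mul_eq_zero.mp h2 with h | h
    · exact sub_eq_zero.mp h
    · exact absurd h hB₁P
  choose T hT using hlin
  have hTpoly : ∀ I, π (∑ J, C (T I J) * gp J) = w / w' * R I := by
    intro I
    rw [hT I, map_sum]
    refine Finset.sum_congr rfl fun J _ => ?_
    rw [map_mul]
    congr 1
    exact π.commutes (T I J)
  have hTev : ∀ (x y : Fin 3 → ℂ) (I : Fin 6), eval (pt x y) (∑ J, C (T I J) * gp J) =
      (Matrix.of T *ᵥ aff x y) I := by
    intro x y I
    rw [map_sum]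
    simp only [map_mul, eval_C, eval_pt_gp]
    rfl
  refine ⟨Matrix.of T, ?_, ?_⟩
  · intro x y hy hxy
    have hv : aff x y ∈ Cone K := aff_mem_Cone hy hxy
    obtain ⟨d, f, hfRep, hfv⟩ := hI.rep _ hv
    have hfR := hf d f hfRep
    have hΦv := hI.maps _ hv
    have h1 : Prop2 (fun i => eval (aff x y) (f i)) (Matrix.of T *ᵥ aff x y) := by
      intro a b
      have h2 : π (aeval gp (f a) * (∑ J, C (T b J) * gp J) - aeval gp (f b) * (∑ J, C (T a J) * gp J))
          = 0 := by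
        rw [map_sub, map_mul, map_mul, hTpoly, hTpoly, ← hPA, ← hPA]
        have := hfR a b
        simp only at this
        linear_combination (w / w') * this
      rw [hπ.ker] at h2
      obtain ⟨q, hq⟩ := h2
      have h3 := congrArg (eval (pt x y)) hq
      rw [map_mul, hxy, zero_mul, map_sub, map_mul, map_mul, hTev, hTev, eval_pt_aeval,
        eval_pt_aeval] at h3
      exact sub_eq_zero.mp h3
    have h4 := hfRep.2 _ hv hfv
    refine h1.symm.trans h4 ?_
    intro h0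
    obtain ⟨i, hi⟩ := hfv
    exact hi (congrFun h0 i)
  · by_contra hc
    push Not at hc
    have hcol : ∀ j : Fin 6, (∀ x y : Fin 3 → ℂ, y ≠ 0 → eval (pt x y) (kap K) = 0 →
        (Matrix.of T *ᵥ aff x y) j = 0) → R j = 0 := by
      intro j hj
      have h1 : kap K ∣ ∑ J, C (T j J) * gp J := by
        apply hNULL K hK hpr
        intro x y hy hxy
        rw [hTev]
        exact hj x y hy hxy
      rw [← hπ.ker, hTpoly] at h1
      rcases mul_eq_zero.mp h1 with h | h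
      · exact absurd h hρ
      · exact h
    have hR2 : R 2 = 0 := hcol 2 fun x y hy hxy => (hc x y hy hxy).1
    have hR4 : R 4 = 0 := hcol 4 fun x y hy hxy => (hc x y hy hxy).2.1
    have hR5 : R 5 = 0 := hcol 5 fun x y hy hxy => (hc x y hy hxy).2.2
    have hX : ∀ j, R j = 0 → ∀ i, XX δ R i j = 0 := by
      intro j hj i
      refine Fin.cases ?_ (fun i => ?_) i
      · simpa [XX] using hj
      · simp [XX, hj]
    have h0 := det_eq_zero_of_cols (XX δ R) (hX 2 hR2) (hX 4 hR4) (hX 5 hR5) L₀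
    rw [hWR L₀] at h0
    rcases mul_eq_zero.mp h0 with h | h
    · exact hw' h
    · exact hL₀ h

end Pool.Agent.H892.ZL
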