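import Pool.Agent.H892.ZL.W.N4
import Pool.Agent.H892.ZL.W.LA
import Pool.Agent.H892.ZL.W.LA2
import Pool.Agent.H892.ZL.W.D6
import Pool.Agent.H892.ZL.W.TANA
import Pool.Agent.H892.ZL.W.TAN
import Pool.Agent.H892.ZL.W.DEC
import Pool.Agent.H892.ZL.W.DECA
import Pool.Agent.H892.ZL.W.CHAIN
import Pool.Agent.H892.ZL.W.LIND
import Pool.Agent.H892.ZL.W.EXPT
import Pool.Agent.H892.ZL.W.SX
import Pool.Agent.H892.ZL.W.KAPH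
import Pool.Agent.H892.ZL.W.HOMF
import Pool.Agent.H892.ZL.W.IRR0
import Pool.Agent.H892.ZL.W.IRR1
import Pool.Agent.H892.ZL.W.IRR
import Pool.Agent.H892.ZL.W.NULL
import Pool.Agent.H892.ZL.W.DERIV
import Pool.Agent.H892.ZL.W.DER
import Pool.Agent.H892.ZL.W.SC
import Pool.Agent.H892.ZL.W.ISW
import Pool.Agent.H892.ZL.W.INL
import Pool.Agent.H892.ZL.W.CL
import Pool.Agent.H892.ZL.W.LOCA
import Pool.Agent.H892.ZL.W.HOMOG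
import Pool.Agent.H892.ZL.W.LOC
import Pool.Agent.H892.ZL.W.N1
import Pool.Agent.H892.ZL.W.N2
import Pool.Agent.H892.ZL.W.N3
import Pool.Agent.H892.ZL.Nrm
import Pool.Agent.H892.ZL.W.R
import Pool.Agent.H892.ZL.W.RK
import Pool.Agent.H892.ZL.W.SCAL
import Pool.Agent.H892.ZL.W.INV
import Pool.Agent.H892.ZL.W.QUAD
import Pool.Agent.H892.ZL.W.LIN
import Pool.Agent.H892.ZL.W.TSING
import Pool.Agent.H892.ZL.W.NETH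
import Pool.Agent.H892.ZL.W.NETD
import Pool.Agent.H892.ZL.W.DISC
import Pool.Agent.H892.ZL.W.SINGL
import Pool.Agent.H892.ZL.W.SMT
import Pool.Agent.H892.ZL.W.SING
import Pool.Agent.H892.ZL.W.SINGREV
import Pool.Agent.H892.ZL.W.GOOD
import Pool.Agent.H892.ZL.W.CONE
import Pool.Agent.H892.ZL.W.BRIDGE
import Pool.Agent.H892.ZL.W.DISCAB
import Pool.Agent.H892.ZL.W.SMOOTH
import Pool.Agent.H892.ZL.W.BASEA
import Pool.Agent.H892.ZL.W.BASEB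
import Pool.Agent.H892.ZL.W.NCARD
import Pool.Agent.H892.ZL.W.REGAB
import Pool.Agent.H892.ZL.W.BRK
import Pool.Agent.H892.ZL.W.STAR
import Pool.Agent.H892.ZL.W.PAIRS
import Pool.Agent.H892.ZL.W.CR
import Pool.Agent.H892.ZL.W.NOCISO
import Pool.Agent.H892.ZL.TT
import Pool.Agent.H892.ZL.Fin

set_option autoImplicit false

/-!
# Assembly: two regular nets with the same discriminant and non-isomorphic threefolds of lines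
-/

namespace Pool.Agent.H892.ZL

theorem f_KAPH : S_KAPH := Pool.Agent.H892.ZL.WKAPH.t_KAPH
theorem f_D6 : S_D6 := Pool.Agent.H892.ZL.WD6.t_D6
theorem f_TANA : S_TANA := Pool.Agent.H892.ZL.WTANA.t_TANA
theorem f_CHAIN : S_CHAIN := Pool.Agent.H892.ZL.WCHAIN.t_CHAIN
theorem f_DECA : S_DECA := Pool.Agent.H892.ZL.WDECA.t_DECA
theorem f_LIND : S_LIND := Pool.Agent.H892.ZL.WLIND.t_LIND
theorem f_SX : S_SX := Pool.Agent.H892.ZL.WSX.t_SX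
theorem f_IRR : S_IRR :=
  Pool.Agent.H892.ZL.WIRR.t_IRR Pool.Agent.H892.ZL.WHOMF.t_HOMF Pool.Agent.H892.ZL.WIRR0.t_IRR0
    (Pool.Agent.H892.ZL.WIRR1.t_IRR1 f_SX f_TANA f_D6 f_CHAIN) f_KAPH
theorem f_NULL : S_NULL := Pool.Agent.H892.ZL.WNULL.t_NULL f_KAPH
theorem f_DER : S_DER := Pool.Agent.H892.ZL.WDER.t_DER f_IRR f_SX Pool.Agent.H892.ZL.WEXPT.t_EXPT f_D6 f_TANA
  f_CHAIN Pool.Agent.H892.ZL.WLA.t_LA Pool.Agent.H892.ZL.WLA2.t_LA2 Pool.Agent.H892.ZL.WDERIV.t_DERIV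
theorem f_CL : S_CL := Pool.Agent.H892.ZL.WCL.t_CL Pool.Agent.H892.ZL.WINL.t_INL
theorem f_LOC : S_LOC := Pool.Agent.H892.ZL.WLOC.t_LOC
  (Pool.Agent.H892.ZL.WLOCA.t_LOCA Pool.Agent.H892.ZL.WINL.t_INL f_CL) Pool.Agent.H892.ZL.WHOMOG.t_HOMOG Pool.Agent.H892.ZL.WSC.t_SC
theorem f_NORM : S_NORM := t_NORM f_KAPH
  (Pool.Agent.H892.ZL.WN1.t_N1 f_KAPH) (Pool.Agent.H892.ZL.WN2.t_N2 f_KAPH) (Pool.Agent.H892.ZL.WN3.t_N3 f_KAPH) Pool.Agent.H892.ZL.WN4.t_N4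
theorem f_T : S_T := t_T f_IRR f_NULL f_SX Pool.Agent.H892.ZL.WEXPT.t_EXPT f_DER
  (Pool.Agent.H892.ZL.WR.t_R f_NULL Pool.Agent.H892.ZL.WEXPT.t_EXPT) (Pool.Agent.H892.ZL.WRK.t_RK Pool.Agent.H892.ZL.WEXPT.t_EXPT)
  (Pool.Agent.H892.ZL.WISW.t_ISW Pool.Agent.H892.ZL.WLA.t_LA) f_LOC f_NORM
theorem f_INV : S_INV := Pool.Agent.H892.ZL.WINV.t_INV f_IRR f_NULL f_DECA (Pool.Agent.H892.ZL.WSCAL.t_SCAL f_LIND)
theorem f_LIN : S_LIN := Pool.Agent.H892.ZL.WLIN.t_LIN f_IRR f_NULL f_T f_INV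
  Pool.Agent.H892.ZL.WQUAD.t_QUAD f_LIND f_DECA
theorem f_TSING : S_TSING := Pool.Agent.H892.ZL.WTSING.t_TSING f_D6 f_TANA f_CHAIN
theorem f_NETD : S_NETD := Pool.Agent.H892.ZL.WNETD.t_NETD
theorem f_SMT : S_SMT := Pool.Agent.H892.ZL.WSMT.t_SMT f_D6 Pool.Agent.H892.ZL.WTAN.t_TAN f_NETD
theorem f_SING : S_SING := Pool.Agent.H892.ZL.WSING.t_SING Pool.Agent.H892.ZL.WDEC.t_DEC f_SMT
  Pool.Agent.H892.ZL.WSINGL.t_SINGL f_NETD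
theorem f_SINGREV : S_SINGREV := Pool.Agent.H892.ZL.WSINGREV.t_SINGREV f_SMT f_NETD
theorem f_GOOD : S_GOOD := Pool.Agent.H892.ZL.WGOOD.t_GOOD Pool.Agent.H892.ZL.WNETH.t_NETH f_NETD f_SING
theorem f_BRIDGE : S_BRIDGE := Pool.Agent.H892.ZL.WBRIDGE.t_BRIDGE
  (Pool.Agent.H892.ZL.WCONE.t_CONE Pool.Agent.H892.ZL.WDEC.t_DEC f_NETD)
theorem f_REGAB : S_REGAB := Pool.Agent.H892.ZL.WREGAB.t_REGAB Pool.Agent.H892.ZL.WDISCAB.t_DISCAB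
  Pool.Agent.H892.ZL.WSMOOTH.t_SMOOTH Pool.Agent.H892.ZL.WBASEA.t_BASEA Pool.Agent.H892.ZL.WBASEB.t_BASEB Pool.Agent.H892.ZL.WNCARD.t_NCARD
theorem f_NOCISO : S_NOCISO := Pool.Agent.H892.ZL.WNOCISO.t_NOCISO f_LIN f_TSING f_SING
  f_SINGREV f_GOOD Pool.Agent.H892.ZL.WDISC.t_DISC Pool.Agent.H892.ZL.WDISCAB.t_DISCAB Pool.Agent.H892.ZL.WSMOOTH.t_SMOOTH
  Pool.Agent.H892.ZL.WBASEA.t_BASEA Pool.Agent.H892.ZL.WBASEB.t_BASEB Pool.Agent.H892.ZL.WBRK.t_BRK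
  (Pool.Agent.H892.ZL.WPAIRS.t_PAIRS Pool.Agent.H892.ZL.WSTAR.t_STAR) Pool.Agent.H892.ZL.WCR.t_CR Pool.Agent.H892.ZL.WCR.t_CRA f_DECA
theorem f_FINAL : S_FINAL :=
  t_FINAL f_REGAB Pool.Agent.H892.ZL.WDISCAB.t_DISCAB f_BRIDGE f_NOCISO

end Pool.Agent.H892.ZL
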